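import Mathlib

set_option autoImplicit false

namespace Pool.Agent.Helper563_SP

open MonoidAlgebra

/-- The subring of `ℚ` of the rationals whose denominator is prime to `p`. -/
def ZLoc (p : ℕ) [hp : Fact p.Prime] : Subring ℚ where
  carrier := {x | ¬ p ∣ x.den}
  mul_mem' := by
    intro a b ha hb h
    have h1 : p ∣ a.den * b.den := h.trans (Rat.mul_den_dvd a b)
    rcases (hp.out.dvd_mul).1 h1 with h2 | h2
    · exact ha h2
    · exact hb h2
  one_mem' := by
    intro h
    exact hp.out.one_lt.ne' (Nat.dvd_one.1 (by simpa using h))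
  add_mem' := by
    intro a b ha hb h
    have h1 : p ∣ a.den * b.den := h.trans (Rat.add_den_dvd a b)
    rcases (hp.out.dvd_mul).1 h1 with h2 | h2
    · exact ha h2
    · exact hb h2
  zero_mem' := by
    intro h
    exact hp.out.one_lt.ne' (Nat.dvd_one.1 (by simpa using h))
  neg_mem' := by
    intro a ha h
    exact ha (by simpa using h)

/-- A ring is semiperfect if it is semisimple modulo its Jacobson radical and idempotents lift modulo
the Jacobson radical. -/
def IsSemiperfect (R : Type) [Ring R] : Prop :=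
  IsSemisimpleRing (R ⧸ Ring.jacobson R) ∧
    ∀ e : R ⧸ Ring.jacobson R, e * e = e →
      ∃ f : R, f * f = f ∧ Ideal.Quotient.mk (Ring.jacobson R) f = e

/-- A finitely generated left module over `A`. -/
structure FGMod (A : Type) [Ring A] : Type 1 where
  carrier : Type
  grp : AddCommGroup carrier
  mod : Module A carrier
  fin : Module.Finite A carrier

attribute [instance] FGMod.grp FGMod.mod FGMod.fin

/-- The relations `[B] - [A] - [C]`, one for each short exact sequence `0 → A → B → C → 0`. -/
def relG0 (A : Type) [Ring A] : AddSubgroup (FreeAbelianGroup (FGMod A)) :=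
  AddSubgroup.closure {x | ∃ (X Y Z : FGMod A) (f : X.carrier →ₗ[A] Y.carrier)
    (g : Y.carrier →ₗ[A] Z.carrier), Function.Injective f ∧ Function.Exact f g ∧
      Function.Surjective g ∧
      x = FreeAbelianGroup.of Y - FreeAbelianGroup.of X - FreeAbelianGroup.of Z}

/-- The Grothendieck group of finitely generated left modules over `A`. -/
abbrev G0 (A : Type) [Ring A] : Type 1 := FreeAbelianGroup (FGMod A) ⧸ relG0 A

/-- The class of a finitely generated module in the Grothendieck group. -/
def cls {A : Type} [Ring A] (M : FGMod A) : G0 A :=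
  QuotientAddGroup.mk (FreeAbelianGroup.of M)

/-- `N` is a reduction modulo `p` of the `ℚG`-module `V`: there is a subgroup `L` of `V`, stable under
`ℤ_(p)` and under `G`, finitely generated over `ℤ_(p)` and spanning `V` over `ℚ`, and an additive
`G`-equivariant surjection `L → N` with kernel `pL`. -/
def IsReduction (p : ℕ) [Fact p.Prime] (G : Type) [Group G] (V : Type) [AddCommGroup V]
    [Module (MonoidAlgebra ℚ G) V] (N : FGMod (MonoidAlgebra (ZMod p) G)) : Prop :=
  ∃ (L : AddSubgroup V) (_ : ∀ (r : ZLoc p) (v : V), v ∈ L →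
        (single (1 : G) (r : ℚ) : MonoidAlgebra ℚ G) • v ∈ L)
    (hG : ∀ (g : G) (v : V), v ∈ L → (single g (1 : ℚ) : MonoidAlgebra ℚ G) • v ∈ L)
    (π : L →+ N.carrier),
    (∃ S : Finset V, (S : Set V) ⊆ L ∧ ∀ v ∈ L, ∃ c : V → ZLoc p,
      v = ∑ s ∈ S, (single (1 : G) (c s : ℚ) : MonoidAlgebra ℚ G) • s) ∧
    (∀ v : V, ∃ n : ℕ, n ≠ 0 ∧ n • v ∈ L) ∧
    Function.Surjective π ∧
    (∀ v : L, π v = 0 ↔ ∃ w : L, v = p • w) ∧
    ∀ (g : G) (v : L), π ⟨(single g (1 : ℚ) : MonoidAlgebra ℚ G) • (v : V), hG g v v.2⟩ =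
      (single g (1 : ZMod p) : MonoidAlgebra (ZMod p) G) • π v

/-- The set of classes in `G₀(𝔽_p G)` of the reductions of the simple `ℚG`-modules. -/
def redClasses (p : ℕ) [Fact p.Prime] (G : Type) [Group G] :
    Set (G0 (MonoidAlgebra (ZMod p) G)) :=
  {x | ∃ (V : Type) (_ : AddCommGroup V) (_ : Module (MonoidAlgebra ℚ G) V)
      (N : FGMod (MonoidAlgebra (ZMod p) G)),
      IsSimpleModule (MonoidAlgebra ℚ G) V ∧ IsReduction p G V N ∧ x = cls N}

/-- Condition (N): the class of every projective indecomposable `𝔽_p G`-module is a sum of classes of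
reductions of simple `ℚG`-modules, with non-negative integer multiplicities. -/
def ConditionN (p : ℕ) [Fact p.Prime] (G : Type) [Group G] : Prop :=
  ∀ P : FGMod (MonoidAlgebra (ZMod p) G),
    Module.Projective (MonoidAlgebra (ZMod p) G) P.carrier → Nontrivial P.carrier →
    (∀ X Y : Submodule (MonoidAlgebra (ZMod p) G) P.carrier, IsCompl X Y → X = ⊥ ∨ Y = ⊥) →
    cls P ∈ AddSubmonoid.closure (redClasses p G)


end Pool.Agent.Helper563_SP
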