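import Pool.Agent.Helper563_SP.Defs

set_option autoImplicit false

namespace Pool.Agent.Helper563_SP

open MonoidAlgebra

-- S1
theorem cls_exact {A : Type} [Ring A] (X Y Z : FGMod A) (f : X.carrier →ₗ[A] Y.carrier)
    (g : Y.carrier →ₗ[A] Z.carrier) (hf : Function.Injective f) (hfg : Function.Exact f g)
    (hg : Function.Surjective g) : cls Y = cls X + cls Z := by
  have h : FreeAbelianGroup.of Y - FreeAbelianGroup.of X - FreeAbelianGroup.of Z ∈ relG0 A :=
    AddSubgroup.subset_closure ⟨X, Y, Z, f, g, hf, hfg, hg, rfl⟩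
  have h2 : (QuotientAddGroup.mk (FreeAbelianGroup.of Y - FreeAbelianGroup.of X -
      FreeAbelianGroup.of Z) : G0 A) = 0 := (QuotientAddGroup.eq_zero_iff _).2 h
  have h3 : cls Y - cls X - cls Z = 0 := h2
  rw [sub_sub, sub_eq_zero] at h3
  exact h3

theorem cls_mem_of_simple {A : Type} [Ring A] (T : AddSubmonoid (G0 A))
    (hT : ∀ S : FGMod A, IsSimpleModule A S.carrier → cls S ∈ T) (hA : Finite A)
    (M : FGMod A) : cls M ∈ T := by
  obtain ⟨n, hn⟩ : ∃ n : ℕ, Nat.card M.carrier = n := ⟨_, rfl⟩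
  induction n using Nat.strong_induction_on generalizing M with
  | _ n ih =>
    have hM : Finite M.carrier := Module.finite_of_finite A
    by_cases hs : Subsingleton M.carrier
    · have h0 : cls M = cls M + cls M := by
        refine cls_exact M M M LinearMap.id LinearMap.id Function.injective_id ?_
          Function.surjective_id
        intro y
        exact ⟨fun _ => ⟨y, rfl⟩, fun _ => Subsingleton.elim _ _⟩
      have h1 : cls M = 0 := by
        have h2 : cls M + 0 = cls M + cls M := by rw [add_zero]; exact h0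
        exact (add_left_cancel h2).symm
      rw [h1]
      exact T.zero_mem
    · have hnt : Nontrivial M.carrier := not_subsingleton_iff_nontrivial.1 hs
      have hfin : Finite (Submodule A M.carrier) :=
        Finite.of_injective (fun S : Submodule A M.carrier => (S : Set M.carrier))
          SetLike.coe_injective
      have hat : IsAtomic (Submodule A M.carrier) := Finite.to_isAtomic
      obtain ⟨S, hS⟩ := IsAtomic.exists_atom (Submodule A M.carrier)
      have hsimple : IsSimpleModule A S := isSimpleModule_iff_isAtom.2 hS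
      have hSfin : Module.Finite A S := Module.Finite.of_finite
      have hQfin : Module.Finite A (M.carrier ⧸ S) := inferInstance
      let X : FGMod A := ⟨S, inferInstance, inferInstance, hSfin⟩
      let Z : FGMod A := ⟨M.carrier ⧸ S, inferInstance, inferInstance, hQfin⟩
      have h1 : cls M = cls X + cls Z := by
        refine cls_exact X M Z S.subtype S.mkQ S.injective_subtype ?_ S.mkQ_surjective
        intro y
        show S.mkQ y = 0 ↔ y ∈ Set.range S.subtype
        rw [Submodule.mkQ_apply, Submodule.Quotient.mk_eq_zero]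
        exact ⟨fun hy => ⟨⟨y, hy⟩, rfl⟩, fun ⟨x, hx⟩ => hx ▸ x.2⟩
      have h2 : cls X ∈ T := hT X hsimple
      have h3 : Nat.card (M.carrier ⧸ S) < n := by
        have h4 := Submodule.card_eq_card_quotient_mul_card S
        have h5 : 1 < Nat.card S := by
          have h6 : Nontrivial S := hsimple.nontrivial
          exact Finite.one_lt_card
        have h8 : Finite (M.carrier ⧸ S) := Finite.of_surjective S.mkQ S.mkQ_surjective
        have h7 : 0 < Nat.card (M.carrier ⧸ S) := Nat.card_pos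
        rw [← hn, h4]
        nlinarith
      have h4 : cls Z ∈ T := ih _ h3 Z rfl
      rw [h1]
      exact T.add_mem h2 h4

-- S2
/-- Idempotents lift from a quotient of a semisimple ring. -/
theorem semisimple_lift {S T : Type} [Ring S] [Ring T] [IsSemisimpleRing S] (q : S →+* T)
    (hq : Function.Surjective q) (t : T) (ht : t * t = t) : ∃ e : S, e * e = e ∧ q e = t := by
  classical
  let I : Submodule S S := RingHom.ker q
  obtain ⟨J, hJ⟩ := exists_isCompl I
  have hmem : (1 : S) ∈ I ⊔ J := by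
    rw [hJ.sup_eq_top]
    trivial
  obtain ⟨c, hc, c', hc', h1⟩ := Submodule.mem_sup.1 hmem
  have hcI : q c = 0 := (RingHom.mem_ker (f := q)).1 hc
  have hI : ∀ x : S, q x = 0 → x * c' = 0 := by
    intro x hx
    have h2 : x * c' ∈ I := by
      show x * c' ∈ RingHom.ker q
      rw [RingHom.mem_ker, map_mul, hx, zero_mul]
    have h3 : x * c' ∈ J := J.smul_mem x hc'
    have h4 : x * c' ∈ I ⊓ J := ⟨h2, h3⟩
    rw [hJ.inf_eq_bot] at h4
    exact (Submodule.mem_bot S).1 h4
  obtain ⟨s, hs⟩ := hq t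
  have hqc' : q c' = 1 := by
    have h2 : q (c + c') = 1 := by rw [h1, map_one]
    rw [map_add, hcI, zero_add] at h2
    exact h2
  have hcc' : c * c' = 0 := hI c hcI
  have hc'c' : c' * c' = c' := by
    have h2 : (c + c') * c' = c' := by rw [h1, one_mul]
    rw [add_mul, hcc', zero_add] at h2
    exact h2
  refine ⟨c' * s * c', ?_, ?_⟩
  · have h2 : q (c' * (s * c' * s - s)) = 0 := by
      rw [map_mul, map_sub, map_mul, map_mul, hqc', hs, mul_one, ht, sub_self, mul_zero]
    have h3 := hI _ h2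
    have h4 : c' * s * c' * (c' * s * c') - c' * s * c' = c' * (s * c' * s - s) * c' := by
      have h5 : c' * s * c' * (c' * s * c') = c' * s * (c' * c') * s * c' := by
        simp only [mul_assoc]
      rw [h5, hc'c']
      noncomm_ring
    rw [h3] at h4
    exact sub_eq_zero.1 h4
  · rw [map_mul, map_mul, hqc', hs, one_mul, mul_one]

-- S3
/-- In a semiperfect ring idempotents lift along every surjection onto a full matrix ring over a field. -/
theorem semiperfect_lift {R K : Type} [Ring R] [Field K] (h : IsSemiperfect R) (n : ℕ)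
    (q : R →+* Matrix (Fin n) (Fin n) K) (hq : Function.Surjective q)
    (t : Matrix (Fin n) (Fin n) K) (ht : t * t = t) : ∃ f : R, f * f = f ∧ q f = t := by
  haveI : RingHomSurjective q := ⟨hq⟩
  have h0 : Ring.jacobson (Matrix (Fin n) (Fin n) K) = ⊥ := IsSemisimpleRing.jacobson_eq_bot _
  have hker : ∀ a ∈ Ring.jacobson R, q a = 0 := by
    intro a ha
    have h1 : a ∈ Ideal.comap q (Ring.jacobson (Matrix (Fin n) (Fin n) K)) :=
      Ring.le_comap_jacobson q ha
    rw [h0] at h1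
    exact h1
  haveI : IsSemisimpleRing (R ⧸ Ring.jacobson R) := h.1
  let qb : (R ⧸ Ring.jacobson R) →+* Matrix (Fin n) (Fin n) K :=
    Ideal.Quotient.lift (Ring.jacobson R) q hker
  have hqb : Function.Surjective qb := by
    intro y
    obtain ⟨x, hx⟩ := hq y
    exact ⟨Ideal.Quotient.mk (Ring.jacobson R) x, by
      rw [← hx]
      exact Ideal.Quotient.lift_mk _ _ _⟩
  obtain ⟨e, he, het⟩ := semisimple_lift qb hqb t ht
  obtain ⟨f, hf, hfe⟩ := h.2 e he
  refine ⟨f, hf, ?_⟩
  rw [← het, ← hfe]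
  exact (Ideal.Quotient.lift_mk _ _ _).symm

/-- The dicyclic group of order 12. -/
abbrev Q12 : Type := QuaternionGroup 3

instance fact2 : Fact (Nat.Prime 2) := ⟨Nat.prime_two⟩

/-- Reduction of `Q12` to `GL₂(𝔽₂)`, as matrices. -/
def rho (R : Type) [Ring R] : Q12 → Matrix (Fin 2) (Fin 2) R
  | QuaternionGroup.a i => (!![0, -1; 1, -1] : Matrix (Fin 2) (Fin 2) R) ^ (i.val)
  | QuaternionGroup.xa i => (!![0, 1; 1, 0] : Matrix (Fin 2) (Fin 2) R) *
      (!![0, -1; 1, -1] : Matrix (Fin 2) (Fin 2) R) ^ (i.val)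

/-- The embedding of `Q12` in the real quaternions. -/
noncomputable def quat : Q12 → Quaternion ℝ
  | QuaternionGroup.a i => (⟨1 / 2, 0, Real.sqrt 3 / 2, 0⟩ : Quaternion ℝ) ^ (i.val)
  | QuaternionGroup.xa i => (⟨0, 1, 0, 0⟩ : Quaternion ℝ) *
      (⟨1 / 2, 0, Real.sqrt 3 / 2, 0⟩ : Quaternion ℝ) ^ (i.val)

/-- The integer valued function `g ↦ 2 Re (quat g)`. -/
def chi : Q12 → ℤ
  | QuaternionGroup.a i => ![2, 1, -1, -2, -1, 1] i
  | QuaternionGroup.xa _ => 0

-- S4
theorem rho_mul_pw {M : Type} [Monoid M] (al : M) (h6 : al ^ 6 = 1) (i j : ZMod (2 * 3)) :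
    al ^ (i + j).val = al ^ i.val * al ^ j.val := by
  rw [ZMod.val_add, ← pow_add, ← pow_eq_pow_mod (i.val + j.val) h6]

theorem rho_mul_cj {M : Type} [Monoid M] (al x : M) (hx : al * x * al = x) (k : ℕ) :
    al ^ k * x * al ^ k = x := by
  induction k with
  | zero => simp
  | succ k ih =>
    calc al ^ (k + 1) * x * al ^ (k + 1) = al * (al ^ k * x * al ^ k) * al := by
          rw [pow_succ' al k, mul_assoc al, mul_assoc al, ← pow_succ', pow_succ al k]
          simp only [mul_assoc]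
      _ = x := by rw [ih, hx]

/-- the general lemma -/
theorem rho_mul_gen {M : Type} [Monoid M] (al x : M) (h6 : al ^ 6 = 1) (hx : al * x * al = x)
    (hxx : x * x = al ^ 3) (F : Q12 → M) (hFa : ∀ i, F (QuaternionGroup.a i) = al ^ i.val)
    (hFx : ∀ i, F (QuaternionGroup.xa i) = x * al ^ i.val) (g h : Q12) : F (g * h) = F g * F h := by
  have hsub : ∀ i j : ZMod (2 * 3), al ^ j.val = al ^ i.val * al ^ (j - i).val := by
    intro i j
    rw [← rho_mul_pw al h6, add_sub_cancel]
  have h3 : ((3 : ZMod (2 * 3))).val = 3 := rfl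
  rcases g with i | i <;> rcases h with j | j
  · rw [QuaternionGroup.a_mul_a, hFa, hFa, hFa, rho_mul_pw al h6]
  · rw [QuaternionGroup.a_mul_xa, hFa, hFx, hFx, hsub i j, ← mul_assoc, ← mul_assoc,
      rho_mul_cj al x hx]
  · rw [QuaternionGroup.xa_mul_a, hFa, hFx, hFx, rho_mul_pw al h6, mul_assoc]
  · rw [QuaternionGroup.xa_mul_xa, hFa, hFx, hFx, hsub i j]
    have e : ((3 : ℕ) : ZMod (2 * 3)) + j - i = 3 + (j - i) := by
      push_cast
      ring
    rw [e, rho_mul_pw al h6, h3, ← hxx]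
    calc x * x * al ^ (j - i).val = x * (al ^ i.val * x * al ^ i.val) * al ^ (j - i).val := by
          rw [rho_mul_cj al x hx]
      _ = _ := by simp only [mul_assoc]

theorem rho_mul (R : Type) [CommRing R] (g h : Q12) : rho R (g * h) = rho R g * rho R h := by
  have h2 : (!![0, -1; 1, -1] : Matrix (Fin 2) (Fin 2) R) ^ 2 = !![-1, 1; -1, 0] := by
    rw [pow_two]
    ext i j
    fin_cases i <;> fin_cases j <;> simp [Matrix.mul_apply, Fin.sum_univ_two]
  have h3 : (!![0, -1; 1, -1] : Matrix (Fin 2) (Fin 2) R) ^ 3 = 1 := by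
    rw [pow_succ, h2]
    ext i j
    fin_cases i <;> fin_cases j <;> simp [Matrix.mul_apply, Fin.sum_univ_two]
  refine rho_mul_gen (!![0, -1; 1, -1] : Matrix (Fin 2) (Fin 2) R) !![0, 1; 1, 0] ?_ ?_ ?_ (rho R)
    (fun _ => rfl) (fun _ => rfl) g h
  · have : (!![0, -1; 1, -1] : Matrix (Fin 2) (Fin 2) R) ^ 6 = ((!![0, -1; 1, -1] : Matrix (Fin 2) (Fin 2) R) ^ 3) ^ 2 := by
      rw [← pow_mul]
    rw [this, h3, one_pow]
  · ext i j
    fin_cases i <;> fin_cases j <;> simp [Matrix.mul_apply, Fin.sum_univ_two]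
  · rw [h3]
    ext i j
    fin_cases i <;> fin_cases j <;> simp [Matrix.mul_apply, Fin.sum_univ_two]

theorem quat_mul (g h : Q12) : quat (g * h) = quat g * quat h := by
  have hs : Real.sqrt 3 * Real.sqrt 3 = 3 := Real.mul_self_sqrt (by norm_num)
  have h2 : (⟨1 / 2, 0, Real.sqrt 3 / 2, 0⟩ : Quaternion ℝ) ^ 2 = ⟨-1 / 2, 0, Real.sqrt 3 / 2, 0⟩ := by
    rw [pow_two, QuaternionAlgebra.mk_mul_mk]
    ext <;> dsimp only <;> nlinarith [hs]
  have h3 : (⟨1 / 2, 0, Real.sqrt 3 / 2, 0⟩ : Quaternion ℝ) ^ 3 = -1 := by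
    rw [pow_succ, h2, QuaternionAlgebra.mk_mul_mk]
    ext <;> simp <;> nlinarith [hs]
  refine rho_mul_gen (⟨1 / 2, 0, Real.sqrt 3 / 2, 0⟩ : Quaternion ℝ) ⟨0, 1, 0, 0⟩ ?_ ?_ ?_ quat
    (fun _ => rfl) (fun _ => rfl) g h
  · have : (⟨1 / 2, 0, Real.sqrt 3 / 2, 0⟩ : Quaternion ℝ) ^ 6 = ((⟨1 / 2, 0, Real.sqrt 3 / 2, 0⟩ : Quaternion ℝ) ^ 3) ^ 2 := by
      rw [← pow_mul]
    rw [this, h3, neg_one_sq]
  · rw [QuaternionAlgebra.mk_mul_mk, QuaternionAlgebra.mk_mul_mk]
    ext <;> simp <;> nlinarith [hs]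
  · rw [h3, QuaternionAlgebra.mk_mul_mk]
    ext <;> simp

-- S5
theorem quat_re_sq : (⟨1 / 2, 0, Real.sqrt 3 / 2, 0⟩ : Quaternion ℝ) ^ 2 =
    (⟨-1 / 2, 0, Real.sqrt 3 / 2, 0⟩ : Quaternion ℝ) := by
  have h3 : Real.sqrt 3 * Real.sqrt 3 = 3 := Real.mul_self_sqrt (by norm_num)
  rw [pow_two]
  ext
  · simp; nlinarith [h3]
  · simp
  · simp; ring
  · simp

theorem quat_re_cube : (⟨1 / 2, 0, Real.sqrt 3 / 2, 0⟩ : Quaternion ℝ) ^ 3 = -1 := by
  have h3 : Real.sqrt 3 * Real.sqrt 3 = 3 := Real.mul_self_sqrt (by norm_num)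
  rw [pow_succ, quat_re_sq]
  ext
  · simp; nlinarith [h3]
  · simp
  · simp; ring
  · simp

theorem quat_re_four : (⟨1 / 2, 0, Real.sqrt 3 / 2, 0⟩ : Quaternion ℝ) ^ 4 =
    -(⟨1 / 2, 0, Real.sqrt 3 / 2, 0⟩ : Quaternion ℝ) := by
  rw [pow_succ, quat_re_cube]; simp

theorem quat_re_five : (⟨1 / 2, 0, Real.sqrt 3 / 2, 0⟩ : Quaternion ℝ) ^ 5 =
    -(⟨-1 / 2, 0, Real.sqrt 3 / 2, 0⟩ : Quaternion ℝ) := by
  rw [show (5:ℕ) = 3 + 2 from rfl, pow_add, quat_re_cube, quat_re_sq]; simp

theorem quat_re (g : Q12) : 2 * (quat g).re = (chi g : ℝ) := by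
  rcases g with i | i
  · fin_cases i
    · show 2 * ((⟨1 / 2, 0, Real.sqrt 3 / 2, 0⟩ : Quaternion ℝ) ^ 0).re = ((2 : ℤ) : ℝ)
      simp
    · show 2 * ((⟨1 / 2, 0, Real.sqrt 3 / 2, 0⟩ : Quaternion ℝ) ^ 1).re = ((1 : ℤ) : ℝ)
      simp
    · show 2 * ((⟨1 / 2, 0, Real.sqrt 3 / 2, 0⟩ : Quaternion ℝ) ^ 2).re = ((-1 : ℤ) : ℝ)
      rw [quat_re_sq]; norm_num
    · show 2 * ((⟨1 / 2, 0, Real.sqrt 3 / 2, 0⟩ : Quaternion ℝ) ^ 3).re = ((-2 : ℤ) : ℝ)
      rw [quat_re_cube]; norm_num
    · show 2 * ((⟨1 / 2, 0, Real.sqrt 3 / 2, 0⟩ : Quaternion ℝ) ^ 4).re = ((-1 : ℤ) : ℝ)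
      rw [quat_re_four]; norm_num
    · show 2 * ((⟨1 / 2, 0, Real.sqrt 3 / 2, 0⟩ : Quaternion ℝ) ^ 5).re = ((1 : ℤ) : ℝ)
      rw [quat_re_five]; norm_num
  · fin_cases i
    · show 2 * ((⟨0, 1, 0, 0⟩ : Quaternion ℝ) * (⟨1 / 2, 0, Real.sqrt 3 / 2, 0⟩ : Quaternion ℝ) ^ 0).re = ((0 : ℤ) : ℝ)
      simp
    · show 2 * ((⟨0, 1, 0, 0⟩ : Quaternion ℝ) * (⟨1 / 2, 0, Real.sqrt 3 / 2, 0⟩ : Quaternion ℝ) ^ 1).re = ((0 : ℤ) : ℝ)
      simp
    · show 2 * ((⟨0, 1, 0, 0⟩ : Quaternion ℝ) * (⟨1 / 2, 0, Real.sqrt 3 / 2, 0⟩ : Quaternion ℝ) ^ 2).re = ((0 : ℤ) : ℝ)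
      rw [quat_re_sq]; simp
    · show 2 * ((⟨0, 1, 0, 0⟩ : Quaternion ℝ) * (⟨1 / 2, 0, Real.sqrt 3 / 2, 0⟩ : Quaternion ℝ) ^ 3).re = ((0 : ℤ) : ℝ)
      rw [quat_re_cube]; simp
    · show 2 * ((⟨0, 1, 0, 0⟩ : Quaternion ℝ) * (⟨1 / 2, 0, Real.sqrt 3 / 2, 0⟩ : Quaternion ℝ) ^ 4).re = ((0 : ℤ) : ℝ)
      rw [quat_re_four]; simp
    · show 2 * ((⟨0, 1, 0, 0⟩ : Quaternion ℝ) * (⟨1 / 2, 0, Real.sqrt 3 / 2, 0⟩ : Quaternion ℝ) ^ 5).re = ((0 : ℤ) : ℝ)
      rw [quat_re_five]; simp

theorem rho_trace (g : Q12) : (rho (ZMod 2) g).trace = (chi g : ZMod 2) := by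
  rcases g with i | i <;> fin_cases i <;> decide

-- S6
/-- Reduction `ℤ_(p) → 𝔽_p`. -/
theorem zloc_red (p : ℕ) [Fact p.Prime] : ∃ r : ZLoc p →+* ZMod p,
    Function.Surjective r ∧ (∀ x : ZLoc p, r x = 0 ↔ ∃ y : ZLoc p, x = p * y) := by
  have hp : p.Prime := Fact.out
  have hden : ∀ x : ZLoc p, (((x : ℚ).den : ℕ) : ZMod p) ≠ 0 := by
    intro x h
    exact x.2 ((ZMod.natCast_eq_zero_iff _ _).1 h)
  let r : ZLoc p →+* ZMod p :=
    { toFun := fun x => (((x : ℚ)) : ZMod p)
      map_one' := by simp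
      map_mul' := fun x y => by
        show (((x * y : ZLoc p) : ℚ) : ZMod p) = _
        rw [Subring.coe_mul]
        exact Rat.cast_mul_of_ne_zero (hden x) (hden y)
      map_zero' := by simp
      map_add' := fun x y => by
        show (((x + y : ZLoc p) : ℚ) : ZMod p) = _
        rw [Subring.coe_add]
        exact Rat.cast_add_of_ne_zero (hden x) (hden y) }
  have hr : ∀ x : ZLoc p, r x = (((x : ℚ)) : ZMod p) := fun _ => rfl
  refine ⟨r, ?_, ?_⟩
  · intro z
    refine ⟨((z.val : ℕ) : ZLoc p), ?_⟩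
    rw [map_natCast]
    exact ZMod.natCast_zmod_val z
  · intro x
    constructor
    · intro h
      rw [hr, Rat.cast_def, div_eq_zero_iff] at h
      have h1 : (((x : ℚ).num : ℤ) : ZMod p) = 0 := by
        rcases h with h | h
        · exact h
        · exact absurd h (hden x)
      obtain ⟨k, hk⟩ := (ZMod.intCast_zmod_eq_zero_iff_dvd _ _).1 h1
      have hmem : ((k : ℤ) : ℚ) / (((x : ℚ).den : ℕ) : ℚ) ∈ ZLoc p := by
        show ¬ p ∣ (((k : ℤ) : ℚ) / (((x : ℚ).den : ℕ) : ℚ)).den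
        intro hd
        have h2 : (((((k : ℤ) : ℚ) / (((x : ℚ).den : ℕ) : ℚ)).den : ℕ) : ℤ)
            ∣ (((x : ℚ).den : ℕ) : ℤ) := by
          have := Rat.den_dvd k (((x : ℚ).den : ℕ) : ℤ)
          rwa [Rat.divInt_eq_div, Int.cast_natCast] at this
        have h3 : (((k : ℤ) : ℚ) / (((x : ℚ).den : ℕ) : ℚ)).den ∣ (x : ℚ).den := by
          exact_mod_cast h2
        exact x.2 (hd.trans h3)
      refine ⟨⟨_, hmem⟩, ?_⟩
      apply Subtype.ext
      rw [Subring.coe_mul]
      show (x : ℚ) = (((p : ℕ) : ZLoc p) : ℚ) * (((k : ℤ) : ℚ) / (((x : ℚ).den : ℕ) : ℚ))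
      have h4 : ((((p : ℕ) : ZLoc p) : ℚ)) = (p : ℚ) := by simp
      rw [h4]
      nth_rewrite 1 [← Rat.num_div_den (x : ℚ)]
      rw [hk]
      push_cast
      ring
    · rintro ⟨y, rfl⟩
      rw [map_mul, map_natCast, ZMod.natCast_self, zero_mul]

-- S7
theorem no_idem_quat_one : quat (1 : Q12) = 1 := by
  rw [QuaternionGroup.one_def]
  show (⟨1 / 2, 0, Real.sqrt 3 / 2, 0⟩ : Quaternion ℝ) ^ ((0 : ZMod (2 * 3)).val) = 1
  simp

noncomputable def no_idem_quatHom : Q12 →* Quaternion ℝ where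
  toFun := quat
  map_one' := no_idem_quat_one
  map_mul' := quat_mul

noncomputable def no_idem_coef : ZLoc 2 →+* Quaternion ℝ :=
  ((algebraMap ℝ (Quaternion ℝ)).comp (algebraMap ℚ ℝ)).comp (ZLoc 2).subtype

noncomputable def no_idem_phi : MonoidAlgebra (ZLoc 2) Q12 →+* Quaternion ℝ :=
  MonoidAlgebra.liftNCRingHom no_idem_coef no_idem_quatHom
    (fun _ _ => Algebra.commute_algebraMap_left _ _)

theorem no_idem_phi_single (g : Q12) (c : ZLoc 2) :
    no_idem_phi (single g c) = algebraMap ℝ (Quaternion ℝ) ((c : ℚ) : ℝ) * quat g := by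
  show MonoidAlgebra.liftNC _ _ _ = _
  rw [MonoidAlgebra.liftNC_single]
  rfl

/-- the functional `f ↦ ∑ f(g) χ(g)` -/
noncomputable def no_idem_T (f : MonoidAlgebra (ZLoc 2) Q12) : ZLoc 2 :=
  ∑ g : Q12, f.coeff g * (chi g : ZLoc 2)

theorem no_idem_T_add (f h : MonoidAlgebra (ZLoc 2) Q12) :
    no_idem_T (f + h) = no_idem_T f + no_idem_T h := by
  unfold no_idem_T
  rw [← Finset.sum_add_distrib]
  refine Finset.sum_congr rfl fun g _ => ?_
  rw [MonoidAlgebra.coeff_add, Finsupp.add_apply, add_mul]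

theorem no_idem_T_single (g : Q12) (c : ZLoc 2) : no_idem_T (single g c) = c * (chi g : ZLoc 2) := by
  unfold no_idem_T
  rw [Finset.sum_eq_single g]
  · rw [MonoidAlgebra.coeff_single, Finsupp.single_eq_same]
  · intro b _ hb
    rw [MonoidAlgebra.coeff_single, Finsupp.single_eq_of_ne hb, zero_mul]
  · intro h; exact absurd (Finset.mem_univ g) h

theorem no_idem_re (f : MonoidAlgebra (ZLoc 2) Q12) :
    2 * (no_idem_phi f).re = ((no_idem_T f : ℚ) : ℝ) := by
  induction f using MonoidAlgebra.induction_linear with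
  | zero =>
    have h0 : (0 : Quaternion ℝ).re = 0 := rfl
    rw [map_zero, h0]; simp [no_idem_T]
  | add f h hf hh =>
    rw [map_add, Quaternion.re_add, mul_add, hf, hh, no_idem_T_add]
    push_cast
    ring
  | single g c =>
    rw [no_idem_phi_single, no_idem_T_single]
    have : (algebraMap ℝ (Quaternion ℝ) ((c : ℚ) : ℝ) * quat g).re = ((c : ℚ) : ℝ) * (quat g).re := by
      rw [← Algebra.smul_def]; simp
    rw [this]
    have h2 := quat_re g
    push_cast
    rw [← h2]
    ring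

theorem no_idem_tr (r : ZLoc 2 →+* ZMod 2)
    (q : MonoidAlgebra (ZLoc 2) Q12 →+* Matrix (Fin 2) (Fin 2) (ZMod 2))
    (hq : ∀ (g : Q12) (c : ZLoc 2), q (single g c) = r c • rho (ZMod 2) g)
    (f : MonoidAlgebra (ZLoc 2) Q12) : (q f).trace = r (no_idem_T f) := by
  induction f using MonoidAlgebra.induction_linear with
  | zero => simp [no_idem_T]
  | add f h hf hh => rw [map_add, Matrix.trace_add, hf, hh, no_idem_T_add, map_add]
  | single g c =>
    rw [hq, Matrix.trace_smul, no_idem_T_single, rho_trace, map_mul, map_intCast, smul_eq_mul]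

/-- There is no idempotent of `ℤ_(2) Q12` with image `E₁₁` in the matrix ring. -/
theorem no_idem (r : ZLoc 2 →+* ZMod 2) (q : MonoidAlgebra (ZLoc 2) Q12 →+* Matrix (Fin 2) (Fin 2) (ZMod 2))
    (hq : ∀ (g : Q12) (c : ZLoc 2), q (single g c) = r c • rho (ZMod 2) g)
    (f : MonoidAlgebra (ZLoc 2) Q12) (hf : f * f = f) : q f ≠ !![1, 0; 0, 0] := by
  intro h
  have h1 : no_idem_phi f * no_idem_phi f = no_idem_phi f := by rw [← map_mul, hf]
  have h2 : no_idem_phi f = 0 ∨ no_idem_phi f = 1 := by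
    have : no_idem_phi f * (no_idem_phi f - 1) = 0 := by rw [mul_sub, h1, mul_one, sub_self]
    rcases mul_eq_zero.1 this with h3 | h3
    · exact Or.inl h3
    · exact Or.inr (sub_eq_zero.1 h3)
  have h3 := no_idem_re f
  have h4 := no_idem_tr r q hq f
  rw [h] at h4
  have h5 : r (no_idem_T f) = 1 := by rw [← h4]; simp [Matrix.trace, Fin.sum_univ_two]
  rcases h2 with h2 | h2
  · rw [h2] at h3
    have h0 : (0 : Quaternion ℝ).re = 0 := rfl
    have : ((no_idem_T f : ℚ) : ℝ) = 0 := by rw [← h3, h0]; simp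
    have h7 : (no_idem_T f : ℚ) = 0 := by exact_mod_cast this
    have h6 : no_idem_T f = 0 := Subtype.ext h7
    rw [h6, map_zero] at h5
    exact absurd h5 (by decide)
  · rw [h2] at h3
    have h0 : (1 : Quaternion ℝ).re = 1 := rfl
    have : ((no_idem_T f : ℚ) : ℝ) = 2 := by rw [← h3, h0]; simp
    have h7 : (no_idem_T f : ℚ) = 2 := by exact_mod_cast this
    have h6 : no_idem_T f = 2 := Subtype.ext (by rw [h7]; rfl)
    rw [h6, map_ofNat] at h5
    exact absurd h5 (by decide)

-- S8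
theorem q_exists_one : rho (ZMod 2) (1 : Q12) = 1 := by
  rw [QuaternionGroup.one_def]
  show (!![0, -1; 1, -1] : Matrix (Fin 2) (Fin 2) (ZMod 2)) ^ ((0 : ZMod (2 * 3)).val) = 1
  simp

theorem q_exists_dec (M : Matrix (Fin 2) (Fin 2) (ZMod 2)) :
    (M 0 0 + M 0 1 + M 1 0) • rho (ZMod 2) (QuaternionGroup.a 0) +
    (M 0 0 + M 1 1) • rho (ZMod 2) (QuaternionGroup.a 1) +
    (M 0 0 + M 1 0 + M 1 1) • rho (ZMod 2) (QuaternionGroup.xa 0) +
    (M 0 1 + M 1 0) • rho (ZMod 2) (QuaternionGroup.xa 1) = M := by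
  have h0 : rho (ZMod 2) (QuaternionGroup.a 0) = !![1, 0; 0, 1] := by
    show (!![0, -1; 1, -1] : Matrix (Fin 2) (Fin 2) (ZMod 2)) ^ ((0 : ZMod (2 * 3)).val) = _
    decide
  have h1 : rho (ZMod 2) (QuaternionGroup.a 1) = !![0, 1; 1, 1] := by
    show (!![0, -1; 1, -1] : Matrix (Fin 2) (Fin 2) (ZMod 2)) ^ ((1 : ZMod (2 * 3)).val) = _
    decide
  have h2 : rho (ZMod 2) (QuaternionGroup.xa 0) = !![0, 1; 1, 0] := by
    show (!![0, 1; 1, 0] : Matrix (Fin 2) (Fin 2) (ZMod 2)) *
      (!![0, -1; 1, -1] : Matrix (Fin 2) (Fin 2) (ZMod 2)) ^ ((0 : ZMod (2 * 3)).val) = _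
    decide
  have h3 : rho (ZMod 2) (QuaternionGroup.xa 1) = !![1, 1; 0, 1] := by
    show (!![0, 1; 1, 0] : Matrix (Fin 2) (Fin 2) (ZMod 2)) *
      (!![0, -1; 1, -1] : Matrix (Fin 2) (Fin 2) (ZMod 2)) ^ ((1 : ZMod (2 * 3)).val) = _
    decide
  rw [h0, h1, h2, h3]
  have key : ∀ a b c d : ZMod 2,
      (a + b + c) * 1 + (a + d) * 0 + (a + c + d) * 0 + (b + c) * 1 = a ∧
      (a + b + c) * 0 + (a + d) * 1 + (a + c + d) * 1 + (b + c) * 1 = b ∧
      (a + b + c) * 0 + (a + d) * 1 + (a + c + d) * 1 + (b + c) * 0 = c ∧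
      (a + b + c) * 1 + (a + d) * 1 + (a + c + d) * 0 + (b + c) * 1 = d := by decide
  obtain ⟨k0, k1, k2, k3⟩ := key (M 0 0) (M 0 1) (M 1 0) (M 1 1)
  ext i j
  fin_cases i <;> fin_cases j
  · simpa using k0
  · simpa using k1
  · simpa using k2
  · simpa using k3

theorem q_exists (r : ZLoc 2 →+* ZMod 2) (hr : Function.Surjective r) :
    ∃ q : MonoidAlgebra (ZLoc 2) Q12 →+* Matrix (Fin 2) (Fin 2) (ZMod 2),
      (∀ (g : Q12) (c : ZLoc 2), q (single g c) = r c • rho (ZMod 2) g) ∧
      Function.Surjective q := by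
  let f : ZLoc 2 →+* Matrix (Fin 2) (Fin 2) (ZMod 2) :=
    (algebraMap (ZMod 2) (Matrix (Fin 2) (Fin 2) (ZMod 2))).comp r
  let g : Q12 →* Matrix (Fin 2) (Fin 2) (ZMod 2) :=
    { toFun := rho (ZMod 2), map_one' := q_exists_one, map_mul' := rho_mul (ZMod 2) }
  have hc : ∀ x y, Commute (f x) (g y) := fun x y => Algebra.commutes (r x) (rho (ZMod 2) y)
  have hq : ∀ (h : Q12) (c : ZLoc 2),
      liftNCRingHom f g hc (single h c) = r c • rho (ZMod 2) h := by
    intro h c
    show liftNC (f : ZLoc 2 →+ Matrix (Fin 2) (Fin 2) (ZMod 2)) g (single h c) = _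
    rw [liftNC_single, Algebra.smul_def]
    rfl
  refine ⟨liftNCRingHom f g hc, hq, ?_⟩
  intro M
  obtain ⟨x0, hx0⟩ := hr (M 0 0 + M 0 1 + M 1 0)
  obtain ⟨x1, hx1⟩ := hr (M 0 0 + M 1 1)
  obtain ⟨x2, hx2⟩ := hr (M 0 0 + M 1 0 + M 1 1)
  obtain ⟨x3, hx3⟩ := hr (M 0 1 + M 1 0)
  refine ⟨single (QuaternionGroup.a 0) x0 + single (QuaternionGroup.a 1) x1 +
    single (QuaternionGroup.xa 0) x2 + single (QuaternionGroup.xa 1) x3, ?_⟩
  rw [map_add, map_add, map_add, hq, hq, hq, hq, hx0, hx1, hx2, hx3]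
  exact q_exists_dec M

theorem not_semiperfect : ¬ IsSemiperfect (MonoidAlgebra (ZLoc 2) Q12) := by
  intro h
  obtain ⟨r, hr, -⟩ := zloc_red 2
  obtain ⟨q, hq, hqs⟩ := q_exists r hr
  obtain ⟨f, hf, hqf⟩ := semiperfect_lift h 2 q hqs !![1, 0; 0, 0] (by
    ext i j; fin_cases i <;> fin_cases j <;> simp [Matrix.mul_apply, Fin.sum_univ_two])
  exact no_idem r q hq f hf hqf

-- S9
section core

variable {S : Type} [AddCommGroup S] (h2 : ∀ s : S, s + s = 0) (A X : S →+ S)

/-- the image of `1 + X` for an involution `X` -/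
theorem simple_cases_invol (h2 : ∀ s : S, s + s = 0) (X : S →+ S) (hX : ∀ s, X (X s) = s)
    (hirr : (∀ s, s ∈ (AddMonoidHom.id S + X).range) ∨ ∀ s ∈ (AddMonoidHom.id S + X).range, s = 0) :
    ∀ s, X s = s := by
  have hadd : ∀ s : S, s + X s = (AddMonoidHom.id S + X) s := fun s => rfl
  intro s
  rcases hirr with h | h
  · obtain ⟨t, ht⟩ := h s
    obtain ⟨u, hu⟩ := h t
    have h3 : t = u + X u := hu.symm
    have h4 : s = t + X t := ht.symm
    have h5 : s = 0 := by
      rw [h4, h3, map_add, hX]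
      have : u + X u + (X u + u) = (u + u) + (X u + X u) := by abel
      rw [this, h2, h2, add_zero]
    rw [h5, map_zero]
  · have h3 : s + X s = 0 := h _ ⟨s, rfl⟩
    have h4 : X s = s + (s + X s) := by
      rw [← add_assoc, h2, zero_add]
    rw [h4, h3, add_zero]

theorem simple_cases_core (h2 : ∀ s : S, s + s = 0) (hne : ∃ s : S, s ≠ 0)
    (hA : ∀ s, A (A (A s)) = s) (hX : ∀ s, X (X s) = s) (hXA : ∀ s, X (A s) = A (A (X s)))
    (hirr : ∀ P : AddSubgroup S, (∀ s ∈ P, A s ∈ P) → (∀ s ∈ P, X s ∈ P) →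
      (∀ s, s ∈ P) ∨ ∀ s ∈ P, s = 0) :
    ((∀ s, A s = s) ∧ (∀ s, X s = s) ∧ ∃ m : S, m ≠ 0 ∧ ∀ s : S, s = 0 ∨ s = m) ∨
    ∃ m n : S, m ≠ 0 ∧ n ≠ 0 ∧ m ≠ n ∧ (∀ s : S, s = 0 ∨ s = m ∨ s = n ∨ s = m + n) ∧
      A m = n ∧ A n = m + n ∧ X m = n ∧ X n = m := by
  have hneg : ∀ s : S, -s = s := fun s => neg_eq_of_add_eq_zero_left (h2 s)
  have hAX : ∀ s, A (X s) = X (A (A s)) := by
    intro s
    rw [hXA, hXA, hA]
  rcases hirr { carrier := {s | A s = s}
                add_mem' := fun {a b} ha hb => by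
                  change A (a + b) = a + b
                  rw [map_add, show A a = a from ha, show A b = b from hb]
                zero_mem' := map_zero A
                neg_mem' := fun {a} ha => by
                  change A (-a) = -a
                  rw [map_neg, show A a = a from ha] }
    (fun s hs => by
      change A (A s) = A s
      rw [show A s = s from hs]; exact hs)
    (fun s hs => by
      change A (X s) = X s
      have h : A s = s := hs
      rw [hAX, h, h]) with h | h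
  · have hA1 : ∀ s, A s = s := fun s => h s
    have hX1 : ∀ s, X s = s := by
      refine simple_cases_invol h2 X hX (hirr _ ?_ ?_)
      · intro s hs
        rw [hA1]
        exact hs
      · rintro _ ⟨t, rfl⟩
        refine ⟨X t, ?_⟩
        change X t + X (X t) = X (t + X t)
        rw [map_add]
    left
    refine ⟨hA1, hX1, ?_⟩
    obtain ⟨m, hm⟩ := hne
    refine ⟨m, hm, ?_⟩
    rcases hirr { carrier := {s | s = 0 ∨ s = m}
                  add_mem' := fun {a b} ha hb => by
                    change a + b = 0 ∨ a + b = m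
                    rcases ha with ha | ha <;> rcases hb with hb | hb <;> subst ha <;>
                      simp_all
                  zero_mem' := Or.inl rfl
                  neg_mem' := fun {a} ha => by
                    change -a = 0 ∨ -a = m
                    rw [hneg]; exact ha }
      (fun s hs => by rw [hA1]; exact hs) (fun s hs => by rw [hX1]; exact hs) with h3 | h3
    · exact h3
    · exact absurd (h3 m (Or.inr rfl)) hm
  · have hfix : ∀ s, A s = s → s = 0 := fun s hs => h s hs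
    have hsum : ∀ s, s + A s + A (A s) = 0 := by
      intro s
      apply hfix
      rw [map_add, map_add, hA]
      abel
    obtain ⟨w, hw, hXw⟩ : ∃ w : S, w ≠ 0 ∧ X w = w := by
      obtain ⟨s, hs⟩ := hne
      by_cases hx : X s = s
      · exact ⟨s, hs, hx⟩
      · refine ⟨s + X s, fun h3 => hx ?_, ?_⟩
        · have h4 : X s = s + (s + X s) := by
            rw [← add_assoc, h2, zero_add]
          rw [h4, h3, add_zero]
        · rw [map_add, hX, add_comm]
    right
    have hwmn : w = A w + A (A w) := by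
      have h3 := hsum w
      rw [add_assoc] at h3
      have h4 := eq_neg_of_add_eq_zero_left h3
      rw [hneg] at h4
      exact h4
    have hAinj : ∀ s, A s = 0 → s = 0 := by
      intro s hs
      rw [← hA s, hs, map_zero, map_zero]
    have hm0 : A w ≠ 0 := fun h3 => hw (hAinj w h3)
    have hn0 : A (A w) ≠ 0 := fun h3 => hm0 (hAinj _ h3)
    have hXm : X (A w) = A (A w) := by rw [hXA, hXw]
    have hXn : X (A (A w)) = A w := by rw [← hXm, hX]
    have hAn : A (A (A w)) = A w + A (A w) := by rw [hA]; exact hwmn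
    have hmn : A w ≠ A (A w) := by
      intro h3
      apply hw
      rw [hwmn, ← h3, h2]
    refine ⟨A w, A (A w), hm0, hn0, hmn, ?_, rfl, hAn, hXm, hXn⟩
    have hAm : A (A w) = A (A w) := rfl
    generalize hn : A (A w) = n at hm0 hn0 hmn hXm hXn hAn ⊢
    generalize hm : A w = m at hm0 hn0 hmn hXm hXn hAn hn ⊢
    replace hAm : A m = n := hn
    have e1 : ∀ a b : S, a + (a + b) = b := fun a b => by rw [← add_assoc, h2, zero_add]
    have e2 : ∀ a b : S, b + (a + b) = a := fun a b => by rw [add_comm a b, e1]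
    have h3 := hirr { carrier := {s | s = 0 ∨ s = m ∨ s = n ∨ s = m + n}
                      add_mem' := fun {a b} ha hb => by
                        change a + b = 0 ∨ a + b = m ∨ a + b = n ∨ a + b = m + n
                        rcases ha with ha | ha | ha | ha <;> rcases hb with hb | hb | hb | hb <;>
                          rw [ha, hb]
                        · left; exact add_zero _
                        · right; left; exact zero_add _
                        · right; right; left; exact zero_add _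
                        · right; right; right; exact zero_add _
                        · right; left; exact add_zero _
                        · left; exact h2 _
                        · right; right; right; rfl
                        · right; right; left; exact e1 _ _
                        · right; right; left; exact add_zero _
                        · right; right; right; exact add_comm _ _
                        · left; exact h2 _
                        · right; left; exact e2 _ _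
                        · right; right; right; exact add_zero _
                        · right; right; left; rw [add_comm]; exact e1 _ _
                        · right; left; rw [add_comm]; exact e2 _ _
                        · left; exact h2 _
                      zero_mem' := Or.inl rfl
                      neg_mem' := fun {a} ha => by
                        change -a = 0 ∨ -a = m ∨ -a = n ∨ -a = m + n
                        rw [hneg]; exact ha }
      (fun s hs => by
        change A s = 0 ∨ A s = m ∨ A s = n ∨ A s = m + n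
        rcases hs with hs | hs | hs | hs
        · left; rw [hs, map_zero]
        · right; right; left; rw [hs, hAm]
        · right; right; right; rw [hs, hAn]
        · right; left; rw [hs, map_add, hAm, hAn, e2])
      (fun s hs => by
        change X s = 0 ∨ X s = m ∨ X s = n ∨ X s = m + n
        rcases hs with hs | hs | hs | hs
        · left; rw [hs, map_zero]
        · right; right; left; rw [hs, hXm]
        · right; left; rw [hs, hXn]
        · right; right; right; rw [hs, map_add, hXm, hXn, add_comm])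
    rcases h3 with h3 | h3
    · exact h3
    · exact absurd (h3 m (Or.inr (Or.inl rfl))) hm0

end core

section action

variable {S : Type} [AddCommGroup S] [Module (MonoidAlgebra (ZMod 2) Q12) S]

/-- the action of the group elements -/
noncomputable def simple_cases_T (g : Q12) : S →+ S where
  toFun s := (single g (1 : ZMod 2) : MonoidAlgebra (ZMod 2) Q12) • s
  map_zero' := smul_zero _
  map_add' := smul_add _

theorem simple_cases_T_mul (g h : Q12) (s : S) :
    simple_cases_T (g * h) s = simple_cases_T g (simple_cases_T h s) := by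
  change (single (g * h) (1 : ZMod 2) : MonoidAlgebra (ZMod 2) Q12) • s =
    (single g (1 : ZMod 2) : MonoidAlgebra (ZMod 2) Q12) •
      (single h (1 : ZMod 2) : MonoidAlgebra (ZMod 2) Q12) • s
  rw [← mul_smul, single_mul_single, one_mul]

theorem simple_cases_T_one (s : S) : simple_cases_T 1 s = s := by
  change (single 1 (1 : ZMod 2) : MonoidAlgebra (ZMod 2) Q12) • s = s
  rw [← one_def, one_smul]

theorem simple_cases_two (s : S) : s + s = 0 := by
  have h : (1 + 1 : MonoidAlgebra (ZMod 2) Q12) • s = 0 := by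
    have h1 : (1 + 1 : MonoidAlgebra (ZMod 2) Q12) = 0 := by
      rw [one_def, ← single_add, show (1 + 1 : ZMod 2) = 0 from rfl, single_zero]
    rw [h1, zero_smul]
  rwa [add_smul, one_smul] at h

theorem simple_cases_irr (hS : IsSimpleModule (MonoidAlgebra (ZMod 2) Q12) S)
    (P : AddSubgroup S) (hP : ∀ g : Q12, ∀ s ∈ P, simple_cases_T g s ∈ P) :
    (∀ s, s ∈ P) ∨ ∀ s ∈ P, s = 0 := by
  let Q : Submodule (MonoidAlgebra (ZMod 2) Q12) S :=
    { carrier := P
      add_mem' := P.add_mem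
      zero_mem' := P.zero_mem
      smul_mem' := by
        intro c s hs
        change c • s ∈ P
        induction c using MonoidAlgebra.induction_linear with
        | zero => rw [zero_smul]; exact P.zero_mem
        | add f g hf hg => rw [add_smul]; exact P.add_mem hf hg
        | single g r =>
          have h1 : r = 0 ∨ r = 1 := by revert r; decide
          rcases h1 with h1 | h1
          · rw [h1, single_zero, zero_smul]; exact P.zero_mem
          · rw [h1]; exact hP g s hs }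
  rcases eq_bot_or_eq_top Q with h | h
  · right
    intro s hs
    have h1 : s ∈ Q := hs
    rw [h] at h1
    exact h1
  · left
    intro s
    have h1 : s ∈ Q := by rw [h]; trivial
    exact h1

theorem simple_cases_gen (P : S → Prop)
    (hA : ∀ s, P s → P (simple_cases_T (QuaternionGroup.a 1) s))
    (hX : ∀ s, P s → P (simple_cases_T (QuaternionGroup.xa 0) s)) (g : Q12) (s : S) (hs : P s) :
    P (simple_cases_T g s) := by
  have h1 : ∀ (k : ℕ) (s : S), P s → P (simple_cases_T (QuaternionGroup.a (k : ZMod (2 * 3))) s) := by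
    intro k
    induction k with
    | zero =>
      intro s hs
      rw [Nat.cast_zero, QuaternionGroup.a_zero, simple_cases_T_one]
      exact hs
    | succ k ih =>
      intro s hs
      rw [Nat.cast_add, Nat.cast_one, ← QuaternionGroup.a_mul_a, simple_cases_T_mul]
      exact ih _ (hA s hs)
  cases g with
  | a i =>
    have h2 := h1 i.val s hs
    rwa [ZMod.natCast_zmod_val] at h2
  | xa i =>
    have h2 := hX _ (h1 i.val s hs)
    rwa [← simple_cases_T_mul, ZMod.natCast_zmod_val, QuaternionGroup.xa_mul_a, zero_add] at h2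

end action

/-- A simple `𝔽₂ Q12`-module is trivial of order 2, or has a basis `m, a m` with `x m = m` and
`a² m = m + a m`. -/
theorem simple_cases (S : Type) [AddCommGroup S] [Module (MonoidAlgebra (ZMod 2) Q12) S]
    (hS : IsSimpleModule (MonoidAlgebra (ZMod 2) Q12) S) :
    ((∀ (g : Q12) (s : S), (single g (1 : ZMod 2) : MonoidAlgebra (ZMod 2) Q12) • s = s) ∧
      ∃ m : S, m ≠ 0 ∧ ∀ s : S, s = 0 ∨ s = m) ∨
    ∃ m n : S, m ≠ 0 ∧ n ≠ 0 ∧ m ≠ n ∧ (∀ s : S, s = 0 ∨ s = m ∨ s = n ∨ s = m + n) ∧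
      (single (QuaternionGroup.a 1) (1 : ZMod 2) : MonoidAlgebra (ZMod 2) Q12) • m = n ∧
      (single (QuaternionGroup.a 1) (1 : ZMod 2) : MonoidAlgebra (ZMod 2) Q12) • n = m + n ∧
      (single (QuaternionGroup.xa 0) (1 : ZMod 2) : MonoidAlgebra (ZMod 2) Q12) • m = n ∧
      (single (QuaternionGroup.xa 0) (1 : ZMod 2) : MonoidAlgebra (ZMod 2) Q12) • n = m := by
  have hirr : ∀ P : AddSubgroup S,
      (∀ s ∈ P, simple_cases_T (QuaternionGroup.a 1 : Q12) s ∈ P) →
      (∀ s ∈ P, simple_cases_T (QuaternionGroup.xa 0 : Q12) s ∈ P) →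
      (∀ s, s ∈ P) ∨ ∀ s ∈ P, s = 0 := fun P h1 h2 =>
    simple_cases_irr hS P fun g s hs => simple_cases_gen (fun s => s ∈ P) h1 h2 g s hs
  have hne : ∃ s : S, s ≠ 0 := by
    have : Nontrivial S := IsSimpleModule.nontrivial (MonoidAlgebra (ZMod 2) Q12) S
    exact exists_ne 0
  have hcomm : ∀ (g h g' h' : Q12), g * h = g' * h' → ∀ s : S,
      simple_cases_T g (simple_cases_T h s) = simple_cases_T g' (simple_cases_T h' s) := by
    intro g h g' h' e s
    rw [← simple_cases_T_mul, e, simple_cases_T_mul]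
  -- the central element
  have hZ : ∀ s : S, simple_cases_T (QuaternionGroup.a 3 : Q12) s = s := by
    refine simple_cases_invol (fun s => simple_cases_two s) _ (fun s => ?_) (hirr _ ?_ ?_)
    · rw [← simple_cases_T_mul, show (QuaternionGroup.a 3 : Q12) * QuaternionGroup.a 3 = 1 from by decide,
        simple_cases_T_one]
    · rintro _ ⟨t, rfl⟩
      refine ⟨simple_cases_T (QuaternionGroup.a 1 : Q12) t, ?_⟩
      change _ + simple_cases_T (QuaternionGroup.a 3 : Q12) (simple_cases_T (QuaternionGroup.a 1 : Q12) t) =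
        simple_cases_T (QuaternionGroup.a 1 : Q12) (t + simple_cases_T (QuaternionGroup.a 3 : Q12) t)
      rw [map_add, hcomm (QuaternionGroup.a 3) (QuaternionGroup.a 1) (QuaternionGroup.a 1)
        (QuaternionGroup.a 3) (by decide)]
      rfl
    · rintro _ ⟨t, rfl⟩
      refine ⟨simple_cases_T (QuaternionGroup.xa 0 : Q12) t, ?_⟩
      change _ + simple_cases_T (QuaternionGroup.a 3 : Q12) (simple_cases_T (QuaternionGroup.xa 0 : Q12) t) =
        simple_cases_T (QuaternionGroup.xa 0 : Q12) (t + simple_cases_T (QuaternionGroup.a 3 : Q12) t)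
      rw [map_add, hcomm (QuaternionGroup.a 3) (QuaternionGroup.xa 0) (QuaternionGroup.xa 0)
        (QuaternionGroup.a 3) (by decide)]
      rfl
  rcases simple_cases_core (simple_cases_T (QuaternionGroup.a 1 : Q12))
      (simple_cases_T (QuaternionGroup.xa 0 : Q12)) (fun s : S => simple_cases_two s) hne
      (fun s => by
        rw [← simple_cases_T_mul, ← simple_cases_T_mul,
          show (QuaternionGroup.a 1 : Q12) * QuaternionGroup.a 1 * QuaternionGroup.a 1 =
            QuaternionGroup.a 3 from by decide, hZ])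
      (fun s => by
        rw [← simple_cases_T_mul,
          show (QuaternionGroup.xa 0 : Q12) * QuaternionGroup.xa 0 =
            QuaternionGroup.a 3 from by decide, hZ])
      (fun s => by
        rw [← simple_cases_T_mul, ← simple_cases_T_mul, ← simple_cases_T_mul,
          show (QuaternionGroup.xa 0 : Q12) * QuaternionGroup.a 1 =
            QuaternionGroup.a 3 * (QuaternionGroup.a 1 * (QuaternionGroup.a 1 *
              QuaternionGroup.xa 0)) from by decide, simple_cases_T_mul, hZ, mul_assoc])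
      hirr with ⟨h1, h2, h3⟩ | h
  · left
    refine ⟨fun g s => ?_, h3⟩
    exact simple_cases_gen (fun t => t = s) (fun t ht => by rw [h1, ht])
      (fun t ht => by rw [h2, ht]) g s rfl
  · right
    exact h

-- S10
/-- The augmentation. -/
noncomputable def red_trivial_aug : MonoidAlgebra ℚ Q12 →+* ℚ :=
  ((MonoidAlgebra.lift ℚ ℚ Q12 (1 : Q12 →* ℚ) : MonoidAlgebra ℚ Q12 →ₐ[ℚ] ℚ) : MonoidAlgebra ℚ Q12 →+* ℚ)

theorem red_trivial_aug_single (g : Q12) (c : ℚ) : red_trivial_aug (single g c) = c := by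
  simp [red_trivial_aug]

theorem red_trivial (S : FGMod (MonoidAlgebra (ZMod 2) Q12))
    (h1 : ∀ (g : Q12) (s : S.carrier), (single g (1 : ZMod 2) : MonoidAlgebra (ZMod 2) Q12) • s = s)
    (h2 : ∃ m : S.carrier, m ≠ 0 ∧ ∀ s : S.carrier, s = 0 ∨ s = m) :
    cls S ∈ redClasses 2 Q12 := by
  classical
  obtain ⟨r, hrs, hrk⟩ := zloc_red 2
  obtain ⟨m, hm0, hm⟩ := h2
  have hmm : m + m = 0 := by
    rcases hm (m + m) with h | h
    · exact h
    · exact absurd (add_eq_left.1 h) hm0
  let modV : Module (MonoidAlgebra ℚ Q12) ℚ := Module.compHom ℚ red_trivial_aug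
  have hsm : ∀ (x : MonoidAlgebra ℚ Q12) (v : ℚ), x • v = red_trivial_aug x * v := fun _ _ => rfl
  have hs1 : ∀ (g : Q12) (c v : ℚ), (single g c : MonoidAlgebra ℚ Q12) • v = c * v := by
    intro g c v
    rw [hsm, red_trivial_aug_single]
  refine ⟨ℚ, inferInstance, modV, S, ?_, ?_, rfl⟩
  · rw [isSimpleModule_iff_toSpanSingleton_surjective]
    refine ⟨inferInstance, fun x hx y => ⟨single 1 (y / x), ?_⟩⟩
    rw [LinearMap.toSpanSingleton_apply, hs1]
    field_simp
  · let L : AddSubgroup ℚ := (ZLoc 2).toAddSubgroup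
    have hL : ∀ x : ℚ, x ∈ L ↔ x ∈ ZLoc 2 := fun _ => Iff.rfl
    let ι : L →+ ZLoc 2 := AddMonoidHom.mk' (fun x => ⟨x.1, x.2⟩) (by intros; rfl)
    let φ : ZMod 2 →+ S.carrier := ZMod.lift 2 ⟨zmultiplesHom _ m, by
      simp [two_smul, hmm]⟩
    have hφ1 : φ 1 = m := by
      have := ZMod.lift_coe 2 (⟨zmultiplesHom _ m, by simp [two_smul, hmm]⟩ :
        { f : ℤ →+ S.carrier // f (2 : ℕ) = 0 }) 1
      simpa [φ] using this
    have hφk : ∀ z : ZMod 2, φ z = 0 → z = 0 := by
      intro z hz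
      have hz2 : z = 0 ∨ z = 1 := by
        clear hz
        revert z
        decide
      rcases hz2 with h | h
      · exact h
      · rw [h, hφ1] at hz
        exact absurd hz hm0
    refine ⟨L, ?_, ?_, φ.comp (r.toAddMonoidHom.comp ι), ⟨{1}, ?_, ?_⟩, ?_, ?_, ?_, ?_⟩
    · intro c v hv
      rw [hs1]
      exact (ZLoc 2).mul_mem c.2 hv
    · intro g v hv
      rw [hs1, one_mul]
      exact hv
    · intro x hx
      have hx1 : x = 1 := by simpa using hx
      rw [hx1]
      exact (ZLoc 2).one_mem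
    · intro v hv
      refine ⟨fun _ => ⟨v, hv⟩, ?_⟩
      rw [Finset.sum_singleton, hs1, mul_one]
    · intro v
      refine ⟨v.den, v.den_nz, ?_⟩
      have h3 : v.den • v = (v.num : ℚ) := by
        rw [nsmul_eq_mul, Rat.den_mul_eq_num]
      rw [h3]
      change ¬ 2 ∣ (v.num : ℚ).den
      simp
    · intro s
      rcases hm s with h | h
      · exact ⟨0, by rw [map_zero, h]⟩
      · refine ⟨⟨1, (ZLoc 2).one_mem⟩, ?_⟩
        change φ (r 1) = s
        rw [map_one, hφ1, h]
    · intro v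
      have h4 : (φ.comp (r.toAddMonoidHom.comp ι)) v = φ (r ⟨v.1, v.2⟩) := rfl
      rw [h4]
      constructor
      · intro h
        obtain ⟨y, hy⟩ := (hrk _).1 (hφk _ h)
        refine ⟨⟨y.1, y.2⟩, ?_⟩
        apply Subtype.ext
        have h5 := congrArg Subtype.val hy
        simpa [two_smul, two_mul] using h5
      · rintro ⟨w, hw⟩
        have h6 : r ⟨v.1, v.2⟩ = 0 := by
          rw [hrk]
          refine ⟨⟨w.1, w.2⟩, ?_⟩
          apply Subtype.ext
          have h5 := congrArg Subtype.val hw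
          simpa [two_smul, two_mul] using h5
        rw [h6, map_zero]
    · intro g v
      rw [h1]
      congr 1
      apply Subtype.ext
      change (single g (1 : ℚ) : MonoidAlgebra ℚ Q12) • (v : ℚ) = v
      rw [hs1, one_mul]

-- S11
/-- A local copy of `ℚ²`. -/
def red_two_V : Type := Fin 2 → ℚ

instance red_two_grp : AddCommGroup red_two_V := inferInstanceAs (AddCommGroup (Fin 2 → ℚ))

/-- The monoid homomorphism of `rho`. -/
noncomputable def red_two_rep : Q12 →* Module.End ℚ (Fin 2 → ℚ) where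
  toFun g := Matrix.toLin' (rho ℚ g)
  map_one' := by
    have h : rho ℚ (1 : Q12) = 1 := by
      show rho ℚ (QuaternionGroup.a 0) = 1
      simp [rho]
    rw [h]
    exact Matrix.toLin'_one
  map_mul' g h := by
    rw [rho_mul, Matrix.toLin'_mul]
    rfl

noncomputable instance red_two_mod : Module (MonoidAlgebra ℚ Q12) red_two_V :=
  Module.compHom (Fin 2 → ℚ)
    (MonoidAlgebra.lift ℚ (Module.End ℚ (Fin 2 → ℚ)) Q12 red_two_rep).toRingHom

theorem red_two_smul (g : Q12) (c : ℚ) (v : red_two_V) :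
    (single g c : MonoidAlgebra ℚ Q12) • v = (c • (rho ℚ g).mulVec v : Fin 2 → ℚ) := by
  show (MonoidAlgebra.lift ℚ (Module.End ℚ (Fin 2 → ℚ)) Q12 red_two_rep (single g c)) v = _
  rw [MonoidAlgebra.lift_single]
  rfl

theorem red_two_smul_one (c : ℚ) (v : red_two_V) (i : Fin 2) :
    ((single (1 : Q12) c : MonoidAlgebra ℚ Q12) • v : red_two_V) i = c * v i := by
  have h : rho ℚ (1 : Q12) = 1 := by
    show rho ℚ (QuaternionGroup.a 0) = 1
    simp [rho]
  have h2 : ∀ u : Fin 2 → ℚ, (c • (rho ℚ (1 : Q12)).mulVec u) i = c * u i := by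
    intro u
    rw [h, Matrix.one_mulVec]
    rfl
  exact (congrFun (red_two_smul 1 c v) i).trans (h2 v)

theorem red_two_rho_a (R : Type) [CommRing R] :
    rho R (QuaternionGroup.a 1) = (!![0, -1; 1, -1] : Matrix (Fin 2) (Fin 2) R) := by
  show (!![0, -1; 1, -1] : Matrix (Fin 2) (Fin 2) R) ^ ((1 : ZMod (2 * 3)).val) = _
  have h : (1 : ZMod (2 * 3)).val = 1 := by decide
  rw [h, pow_one]

theorem red_two_rho_x (R : Type) [CommRing R] :
    rho R (QuaternionGroup.xa 0) = (!![0, 1; 1, 0] : Matrix (Fin 2) (Fin 2) R) := by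
  show (!![0, 1; 1, 0] : Matrix (Fin 2) (Fin 2) R) *
      (!![0, -1; 1, -1] : Matrix (Fin 2) (Fin 2) R) ^ ((0 : ZMod (2 * 3)).val) = _
  have h : (0 : ZMod (2 * 3)).val = 0 := by decide
  rw [h, pow_zero, mul_one]

theorem red_two_act_a (c : ℚ) (v : red_two_V) :
    ((single (QuaternionGroup.a 1) c : MonoidAlgebra ℚ Q12) • v : red_two_V) 0 = c * (- v 1) ∧
    ((single (QuaternionGroup.a 1) c : MonoidAlgebra ℚ Q12) • v : red_two_V) 1
      = c * (v 0 - v 1) := by
  rw [red_two_smul, red_two_rho_a]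
  constructor
  · show c * ((!![0, -1; 1, -1] : Matrix (Fin 2) (Fin 2) ℚ).mulVec v) 0 = _
    congr 1
    simp [Matrix.mulVec, dotProduct, Fin.sum_univ_two]
  · show c * ((!![0, -1; 1, -1] : Matrix (Fin 2) (Fin 2) ℚ).mulVec v) 1 = _
    congr 1
    simp [Matrix.mulVec, dotProduct, Fin.sum_univ_two]
    ring

theorem red_two_act_x (c : ℚ) (v : red_two_V) :
    ((single (QuaternionGroup.xa 0) c : MonoidAlgebra ℚ Q12) • v : red_two_V) 0 = c * (v 1) ∧
    ((single (QuaternionGroup.xa 0) c : MonoidAlgebra ℚ Q12) • v : red_two_V) 1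
      = c * (v 0) := by
  rw [red_two_smul, red_two_rho_x]
  constructor
  · show c * ((!![0, 1; 1, 0] : Matrix (Fin 2) (Fin 2) ℚ).mulVec v) 0 = _
    congr 1
    simp [Matrix.mulVec, dotProduct, Fin.sum_univ_two]
  · show c * ((!![0, 1; 1, 0] : Matrix (Fin 2) (Fin 2) ℚ).mulVec v) 1 = _
    congr 1
    simp [Matrix.mulVec, dotProduct, Fin.sum_univ_two]

theorem red_two_gen (P : Q12 → Prop) (h1 : P 1) (ha : P (QuaternionGroup.a 1))
    (hx : P (QuaternionGroup.xa 0)) (hm : ∀ g h, P g → P h → P (g * h)) (g : Q12) : P g := by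
  have hpow : ∀ k : ℕ, P (QuaternionGroup.a (k : ZMod (2 * 3))) := by
    intro k
    induction k with
    | zero =>
      have : (QuaternionGroup.a ((0 : ℕ) : ZMod (2 * 3)) : Q12) = 1 := by
        rw [Nat.cast_zero]; rfl
      rw [this]; exact h1
    | succ k ih =>
      have : (QuaternionGroup.a ((k + 1 : ℕ) : ZMod (2 * 3)) : Q12)
          = QuaternionGroup.a (k : ZMod (2 * 3)) * QuaternionGroup.a 1 := by
        rw [QuaternionGroup.a_mul_a, Nat.cast_add, Nat.cast_one]
      rw [this]; exact hm _ _ ih ha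
  have hall : ∀ i : ZMod (2 * 3), P (QuaternionGroup.a i) := by
    intro i
    have := hpow i.val
    rwa [ZMod.natCast_zmod_val] at this
  cases g with
  | a i => exact hall i
  | xa i =>
    have : (QuaternionGroup.xa i : Q12) = QuaternionGroup.xa 0 * QuaternionGroup.a i := by
      rw [QuaternionGroup.xa_mul_a, zero_add]
    rw [this]; exact hm _ _ hx (hall i)

theorem red_two_ext (v w : red_two_V) (h0 : v 0 = w 0) (h1 : v 1 = w 1) : v = w := by
  funext i
  fin_cases i
  · exact h0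
  · exact h1

theorem red_two_simple : IsSimpleModule (MonoidAlgebra ℚ Q12) red_two_V := by
  rw [isSimpleModule_iff_toSpanSingleton_surjective]
  refine ⟨⟨⟨(fun _ => 0 : Fin 2 → ℚ), (fun _ => 1 : Fin 2 → ℚ), fun h => ?_⟩⟩, ?_⟩
  · exact absurd (congrFun h 0) (by norm_num)
  · intro v hv w
    have hD : (v 0) * (v 0 - v 1) + (v 1) * (v 1) ≠ 0 := by
      intro h
      apply hv
      have e : (v 0) * (v 0 - v 1) + (v 1) * (v 1)
          = (v 0 - v 1 / 2) ^ 2 + 3 / 4 * (v 1) ^ 2 := by ring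
      rw [e] at h
      have h1 : v 1 = 0 := by
        have := sq_nonneg (v 0 - v 1 / 2)
        have := sq_nonneg (v 1)
        have h3 : (v 1) ^ 2 = 0 := by linarith
        exact pow_eq_zero_iff (two_ne_zero) |>.1 h3
      have h0 : v 0 = 0 := by
        rw [h1] at h
        have h3 : (v 0) ^ 2 = 0 := by linarith
        exact pow_eq_zero_iff (two_ne_zero) |>.1 h3
      exact red_two_ext v 0 h0 h1
    refine ⟨single (1 : Q12) ((w 0 * (v 0 - v 1) + v 1 * w 1) /
        ((v 0) * (v 0 - v 1) + (v 1) * (v 1))) +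
      single (QuaternionGroup.a 1) ((v 0 * w 1 - v 1 * w 0) /
        ((v 0) * (v 0 - v 1) + (v 1) * (v 1))), ?_⟩
    rw [LinearMap.toSpanSingleton_apply, add_smul]
    apply red_two_ext
    · refine (congrArg₂ (· + ·) (red_two_smul_one _ v 0) (red_two_act_a _ v).1).trans ?_
      rw [div_mul_eq_mul_div, div_mul_eq_mul_div, ← add_div, div_eq_iff hD]
      ring
    · refine (congrArg₂ (· + ·) (red_two_smul_one _ v 1) (red_two_act_a _ v).2).trans ?_
      rw [div_mul_eq_mul_div, div_mul_eq_mul_div, ← add_div, div_eq_iff hD]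
      ring

/-- The lattice. -/
def red_two_L : AddSubgroup red_two_V where
  carrier := {v | v 0 ∈ ZLoc 2 ∧ v 1 ∈ ZLoc 2}
  add_mem' := by
    intro a b ha hb
    exact ⟨(ZLoc 2).add_mem ha.1 hb.1, (ZLoc 2).add_mem ha.2 hb.2⟩
  zero_mem' := ⟨(ZLoc 2).zero_mem, (ZLoc 2).zero_mem⟩
  neg_mem' := by
    intro a ha
    exact ⟨(ZLoc 2).neg_mem ha.1, (ZLoc 2).neg_mem ha.2⟩

theorem red_two_mul_smul {R : Type} [CommRing R] {M : Type} [AddCommGroup M]
    [Module (MonoidAlgebra R Q12) M] (g h : Q12) (v : M) :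
    (single (g * h) (1 : R) : MonoidAlgebra R Q12) • v =
      (single g (1 : R) : MonoidAlgebra R Q12) • ((single h (1 : R) : MonoidAlgebra R Q12) • v) := by
  rw [← mul_smul, single_mul_single, mul_one]

theorem red_two_one_smul {R : Type} [CommRing R] {M : Type} [AddCommGroup M]
    [Module (MonoidAlgebra R Q12) M] (v : M) :
    (single (1 : Q12) (1 : R) : MonoidAlgebra R Q12) • v = v := by
  have : (single (1 : Q12) (1 : R) : MonoidAlgebra R Q12) = 1 := rfl
  rw [this, one_smul]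

theorem red_two_stab (g : Q12) : ∀ v : red_two_V, v ∈ red_two_L →
    (single g (1 : ℚ) : MonoidAlgebra ℚ Q12) • v ∈ red_two_L := by
  refine red_two_gen (fun g => ∀ v : red_two_V, v ∈ red_two_L →
    (single g (1 : ℚ) : MonoidAlgebra ℚ Q12) • v ∈ red_two_L) ?_ ?_ ?_ ?_ g
  · intro v hv
    rw [red_two_one_smul]
    exact hv
  · intro v hv
    refine ⟨?_, ?_⟩
    · rw [(red_two_act_a 1 v).1, one_mul]
      exact (ZLoc 2).neg_mem hv.2
    · rw [(red_two_act_a 1 v).2, one_mul]
      exact (ZLoc 2).sub_mem hv.1 hv.2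
  · intro v hv
    refine ⟨?_, ?_⟩
    · rw [(red_two_act_x 1 v).1, one_mul]
      exact hv.2
    · rw [(red_two_act_x 1 v).2, one_mul]
      exact hv.1
  · intro g h hg hh v hv
    rw [red_two_mul_smul]
    exact hg _ (hh _ hv)

theorem red_two_nsmul_apply (k : ℕ) (v : red_two_V) (i : Fin 2) :
    (k • v) i = k * v i := by
  have : ∀ j : Fin 2, ∀ u : Fin 2 → ℚ, (k • u) j = k * u j := by
    intro j u
    rw [Pi.smul_apply, nsmul_eq_mul]
  exact this i v

theorem red_two_span (v : red_two_V) : ∃ k : ℕ, k ≠ 0 ∧ k • v ∈ red_two_L := by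
  refine ⟨(v 0).den * (v 1).den, Nat.mul_ne_zero (v 0).den_nz (v 1).den_nz, ?_, ?_⟩
  · rw [red_two_nsmul_apply]
    have : (((v 0).den * (v 1).den : ℕ) : ℚ) * v 0
        = (((v 1).den : ℤ) * (v 0).num : ℤ) := by
      push_cast
      have := Rat.mul_den_eq_num (v 0)
      linear_combination ((v 1).den : ℚ) * this
    rw [this]
    show ¬ 2 ∣ _
    rw [Rat.den_intCast]
    decide
  · rw [red_two_nsmul_apply]
    have : (((v 0).den * (v 1).den : ℕ) : ℚ) * v 1
        = (((v 0).den : ℤ) * (v 1).num : ℤ) := by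
      push_cast
      have := Rat.mul_den_eq_num (v 1)
      linear_combination ((v 0).den : ℚ) * this
    rw [this]
    show ¬ 2 ∣ _
    rw [Rat.den_intCast]
    decide

/-- The two standard vectors. -/
def red_two_e (i : Fin 2) : red_two_V := fun j => if j = i then 1 else 0

theorem red_two_fg : ∃ S : Finset red_two_V, (S : Set red_two_V) ⊆ red_two_L ∧
    ∀ v ∈ red_two_L, ∃ c : red_two_V → ZLoc 2,
      v = ∑ s ∈ S, (single (1 : Q12) (c s : ℚ) : MonoidAlgebra ℚ Q12) • s := by
  classical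
  have h01 : red_two_e 0 ≠ red_two_e 1 := by
    intro h
    exact absurd (congrFun h 0) (by norm_num [red_two_e])
  refine ⟨{red_two_e 0, red_two_e 1}, ?_, ?_⟩
  · intro s hs
    simp only [Finset.coe_insert, Finset.coe_singleton, Set.mem_insert_iff,
      Set.mem_singleton_iff] at hs
    rcases hs with rfl | rfl
    · exact ⟨(ZLoc 2).one_mem, (ZLoc 2).zero_mem⟩
    · exact ⟨(ZLoc 2).zero_mem, (ZLoc 2).one_mem⟩
  · intro v hv
    refine ⟨fun s => if s = red_two_e 0 then ⟨v 0, hv.1⟩ else ⟨v 1, hv.2⟩, ?_⟩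
    rw [Finset.sum_pair h01]
    simp only [if_true, if_neg h01.symm]
    apply red_two_ext
    · refine Eq.trans ?_ (congrArg₂ (· + ·) (red_two_smul_one _ (red_two_e 0) 0)
        (red_two_smul_one _ (red_two_e 1) 0)).symm
      simp [red_two_e]
    · refine Eq.trans ?_ (congrArg₂ (· + ·) (red_two_smul_one _ (red_two_e 0) 1)
        (red_two_smul_one _ (red_two_e 1) 1)).symm
      simp [red_two_e]

/-- The reduction map. -/
noncomputable def red_two_pi {M : Type} [AddCommGroup M] [Module (MonoidAlgebra (ZMod 2) Q12) M]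
    (r : ZLoc 2 →+* ZMod 2) (m n : M) : red_two_L →+ M where
  toFun v := (single (1 : Q12) (r ⟨v.1 0, v.2.1⟩) : MonoidAlgebra (ZMod 2) Q12) • m +
    (single (1 : Q12) (r ⟨v.1 1, v.2.2⟩) : MonoidAlgebra (ZMod 2) Q12) • n
  map_zero' := by
    have h0 : r ⟨(0 : red_two_L).1 0, (0 : red_two_L).2.1⟩ = 0 := map_zero r
    have h1 : r ⟨(0 : red_two_L).1 1, (0 : red_two_L).2.2⟩ = 0 := map_zero r
    rw [h0, h1]
    simp
  map_add' := by
    intro v w
    have h0 : r ⟨(v + w : red_two_L).1 0, (v + w : red_two_L).2.1⟩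
      = r ⟨v.1 0, v.2.1⟩ + r ⟨w.1 0, w.2.1⟩ := by
        rw [← map_add]; rfl
    have h1 : r ⟨(v + w : red_two_L).1 1, (v + w : red_two_L).2.2⟩
      = r ⟨v.1 1, v.2.2⟩ + r ⟨w.1 1, w.2.2⟩ := by
        rw [← map_add]; rfl
    rw [h0, h1, single_add, single_add, add_smul, add_smul]
    abel

theorem red_two_pi_apply {M : Type} [AddCommGroup M] [Module (MonoidAlgebra (ZMod 2) Q12) M]
    (r : ZLoc 2 →+* ZMod 2) (m n : M) (v : red_two_L) : red_two_pi r m n v =
    (single (1 : Q12) (r ⟨v.1 0, v.2.1⟩) : MonoidAlgebra (ZMod 2) Q12) • m +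
    (single (1 : Q12) (r ⟨v.1 1, v.2.2⟩) : MonoidAlgebra (ZMod 2) Q12) • n := rfl

theorem red_two_comm {M : Type} [AddCommGroup M] [Module (MonoidAlgebra (ZMod 2) Q12) M]
    (g : Q12) (c : ZMod 2) (m : M) :
    (single g (1 : ZMod 2) : MonoidAlgebra (ZMod 2) Q12) •
      ((single (1 : Q12) c : MonoidAlgebra (ZMod 2) Q12) • m) =
    (single (1 : Q12) c : MonoidAlgebra (ZMod 2) Q12) •
      ((single g (1 : ZMod 2) : MonoidAlgebra (ZMod 2) Q12) • m) := by
  rw [← mul_smul, ← mul_smul, single_mul_single, single_mul_single, mul_one, one_mul, mul_one,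
    one_mul]

theorem red_two_equi {M : Type} [AddCommGroup M] [Module (MonoidAlgebra (ZMod 2) Q12) M]
    (r : ZLoc 2 →+* ZMod 2) (m n : M)
    (h1 : (single (QuaternionGroup.a 1) (1 : ZMod 2) : MonoidAlgebra (ZMod 2) Q12) • m = n)
    (h2 : (single (QuaternionGroup.a 1) (1 : ZMod 2) : MonoidAlgebra (ZMod 2) Q12) • n = m + n)
    (h3 : (single (QuaternionGroup.xa 0) (1 : ZMod 2) : MonoidAlgebra (ZMod 2) Q12) • m = n)
    (h4 : (single (QuaternionGroup.xa 0) (1 : ZMod 2) : MonoidAlgebra (ZMod 2) Q12) • n = m)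
    (g : Q12) : ∀ (v : red_two_V) (hv : v ∈ red_two_L),
      red_two_pi r m n ⟨(single g (1 : ℚ) : MonoidAlgebra ℚ Q12) • v, red_two_stab g v hv⟩ =
      (single g (1 : ZMod 2) : MonoidAlgebra (ZMod 2) Q12) • red_two_pi r m n ⟨v, hv⟩ := by
  refine red_two_gen (fun g => ∀ (v : red_two_V) (hv : v ∈ red_two_L),
      red_two_pi r m n ⟨(single g (1 : ℚ) : MonoidAlgebra ℚ Q12) • v, red_two_stab g v hv⟩ =
      (single g (1 : ZMod 2) : MonoidAlgebra (ZMod 2) Q12) • red_two_pi r m n ⟨v, hv⟩)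
      ?_ ?_ ?_ ?_ g
  · intro v hv
    refine Eq.trans ?_ (red_two_one_smul _).symm
    exact congrArg (red_two_pi r m n) (Subtype.ext (red_two_one_smul v))
  · intro v hv
    rw [red_two_pi_apply, red_two_pi_apply, smul_add, red_two_comm, red_two_comm, h1, h2]
    have e0 : r ⟨((single (QuaternionGroup.a 1) (1 : ℚ) : MonoidAlgebra ℚ Q12) • v : red_two_V) 0,
        (red_two_stab _ v hv).1⟩ = r ⟨v 1, hv.2⟩ := by
      have : (⟨((single (QuaternionGroup.a 1) (1 : ℚ) : MonoidAlgebra ℚ Q12) • v : red_two_V) 0,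
        (red_two_stab _ v hv).1⟩ : ZLoc 2) = - ⟨v 1, hv.2⟩ := by
        apply Subtype.ext
        exact (red_two_act_a 1 v).1.trans (one_mul _)
      rw [this, map_neg, ZMod.neg_eq_self_mod_two]
    have e1 : r ⟨((single (QuaternionGroup.a 1) (1 : ℚ) : MonoidAlgebra ℚ Q12) • v : red_two_V) 1,
        (red_two_stab _ v hv).2⟩ = r ⟨v 0, hv.1⟩ + r ⟨v 1, hv.2⟩ := by
      have : (⟨((single (QuaternionGroup.a 1) (1 : ℚ) : MonoidAlgebra ℚ Q12) • v : red_two_V) 1,
        (red_two_stab _ v hv).2⟩ : ZLoc 2) = ⟨v 0, hv.1⟩ - ⟨v 1, hv.2⟩ := by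
        apply Subtype.ext
        exact (red_two_act_a 1 v).2.trans (one_mul _)
      rw [this, map_sub, sub_eq_add_neg, ZMod.neg_eq_self_mod_two]
    rw [e0, e1, single_add, add_smul, smul_add]
    abel
  · intro v hv
    rw [red_two_pi_apply, red_two_pi_apply, smul_add, red_two_comm, red_two_comm, h3, h4]
    have e0 : r ⟨((single (QuaternionGroup.xa 0) (1 : ℚ) : MonoidAlgebra ℚ Q12) • v : red_two_V) 0,
        (red_two_stab _ v hv).1⟩ = r ⟨v 1, hv.2⟩ := by
      congr 1
      apply Subtype.ext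
      exact (red_two_act_x 1 v).1.trans (one_mul _)
    have e1 : r ⟨((single (QuaternionGroup.xa 0) (1 : ℚ) : MonoidAlgebra ℚ Q12) • v : red_two_V) 1,
        (red_two_stab _ v hv).2⟩ = r ⟨v 0, hv.1⟩ := by
      congr 1
      apply Subtype.ext
      exact (red_two_act_x 1 v).2.trans (one_mul _)
    rw [e0, e1]
    abel
  · intro g h hg hh v hv
    refine Eq.trans ?_ (red_two_mul_smul g h _).symm
    rw [← hh v hv, ← hg _ (red_two_stab h v hv)]
    exact congrArg (red_two_pi r m n) (Subtype.ext (red_two_mul_smul g h v))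

theorem red_two_double {M : Type} [AddCommGroup M] [Module (MonoidAlgebra (ZMod 2) Q12) M]
    (m : M) : m + m = 0 := by
  have h : (single (1 : Q12) (1 : ZMod 2) : MonoidAlgebra (ZMod 2) Q12) • m +
      (single (1 : Q12) (1 : ZMod 2) : MonoidAlgebra (ZMod 2) Q12) • m = 0 := by
    rw [← add_smul, ← single_add]
    have : (1 : ZMod 2) + 1 = 0 := by decide
    rw [this, single_zero, zero_smul]
  rwa [red_two_one_smul] at h

theorem red_two_ker {M : Type} [AddCommGroup M] [Module (MonoidAlgebra (ZMod 2) Q12) M]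
    (r : ZLoc 2 →+* ZMod 2) (hr : ∀ x : ZLoc 2, r x = 0 ↔ ∃ y : ZLoc 2, x = (2 : ℕ) * y)
    (m n : M) (h0 : m ≠ 0) (h0' : n ≠ 0) (hmn : m ≠ n) (v : red_two_L) :
    red_two_pi r m n v = 0 ↔ ∃ w : red_two_L, v = (2 : ℕ) • w := by
  constructor
  · intro h
    rw [red_two_pi_apply] at h
    have hc : ∀ z : ZMod 2, z = 0 ∨ z = 1 := by decide
    have key : r ⟨v.1 0, v.2.1⟩ = 0 ∧ r ⟨v.1 1, v.2.2⟩ = 0 := by
      rcases hc (r ⟨v.1 0, v.2.1⟩) with a | a <;> rcases hc (r ⟨v.1 1, v.2.2⟩) with b | b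
      · exact ⟨a, b⟩
      · exfalso
        rw [a, b, red_two_one_smul, single_zero, zero_smul, zero_add] at h
        exact h0' h
      · exfalso
        rw [a, b, red_two_one_smul, single_zero, zero_smul, add_zero] at h
        exact h0 h
      · exfalso
        rw [a, b, red_two_one_smul, red_two_one_smul] at h
        apply hmn
        have := red_two_double n
        have h5 : m + n = n + n := by rw [h, this]
        exact add_right_cancel h5
    obtain ⟨x, hx⟩ := (hr _).1 key.1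
    obtain ⟨y, hy⟩ := (hr _).1 key.2
    have hx' : v.1 0 = 2 * (x : ℚ) := congrArg Subtype.val hx
    have hy' : v.1 1 = 2 * (y : ℚ) := congrArg Subtype.val hy
    let w : red_two_V := fun i => if i = 0 then (x : ℚ) else (y : ℚ)
    have hw : w ∈ red_two_L := ⟨x.2, y.2⟩
    refine ⟨⟨w, hw⟩, Subtype.ext ?_⟩
    show v.1 = (2 : ℕ) • w
    apply red_two_ext
    · rw [red_two_nsmul_apply, hx']
      simp [w]
    · rw [red_two_nsmul_apply, hy']
      simp [w]
  · rintro ⟨w, rfl⟩
    rw [map_nsmul, two_nsmul, red_two_double]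

theorem red_two (S : FGMod (MonoidAlgebra (ZMod 2) Q12)) (m n : S.carrier) (h0 : m ≠ 0) (h0' : n ≠ 0)
    (hmn : m ≠ n) (h : ∀ s : S.carrier, s = 0 ∨ s = m ∨ s = n ∨ s = m + n)
    (h1 : (single (QuaternionGroup.a 1) (1 : ZMod 2) : MonoidAlgebra (ZMod 2) Q12) • m = n)
    (h2 : (single (QuaternionGroup.a 1) (1 : ZMod 2) : MonoidAlgebra (ZMod 2) Q12) • n = m + n)
    (h3 : (single (QuaternionGroup.xa 0) (1 : ZMod 2) : MonoidAlgebra (ZMod 2) Q12) • m = n)
    (h4 : (single (QuaternionGroup.xa 0) (1 : ZMod 2) : MonoidAlgebra (ZMod 2) Q12) • n = m) :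
    cls S ∈ redClasses 2 Q12 := by
  obtain ⟨r, -, hr⟩ := zloc_red 2
  refine ⟨red_two_V, red_two_grp, red_two_mod, S, red_two_simple,
    ⟨red_two_L, ?_, red_two_stab, red_two_pi r m n, red_two_fg, red_two_span, ?_, ?_, ?_⟩, rfl⟩
  · intro c v hv
    exact ⟨by rw [red_two_smul_one]; exact (ZLoc 2).mul_mem c.2 hv.1,
      by rw [red_two_smul_one]; exact (ZLoc 2).mul_mem c.2 hv.2⟩
  · have he0 : red_two_e 0 ∈ red_two_L := ⟨(ZLoc 2).one_mem, (ZLoc 2).zero_mem⟩
    have he1 : red_two_e 1 ∈ red_two_L := ⟨(ZLoc 2).zero_mem, (ZLoc 2).one_mem⟩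
    have p0 : red_two_pi r m n ⟨red_two_e 0, he0⟩ = m := by
      rw [red_two_pi_apply]
      have a : r ⟨red_two_e 0 0, he0.1⟩ = 1 := map_one r
      have b : r ⟨red_two_e 0 1, he0.2⟩ = 0 := map_zero r
      show (single (1 : Q12) (r ⟨red_two_e 0 0, he0.1⟩) : MonoidAlgebra (ZMod 2) Q12) • m +
        (single (1 : Q12) (r ⟨red_two_e 0 1, he0.2⟩) : MonoidAlgebra (ZMod 2) Q12) • n = m
      rw [a, b, red_two_one_smul, single_zero, zero_smul, add_zero]
    have p1 : red_two_pi r m n ⟨red_two_e 1, he1⟩ = n := by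
      rw [red_two_pi_apply]
      have a : r ⟨red_two_e 1 0, he1.1⟩ = 0 := map_zero r
      have b : r ⟨red_two_e 1 1, he1.2⟩ = 1 := map_one r
      show (single (1 : Q12) (r ⟨red_two_e 1 0, he1.1⟩) : MonoidAlgebra (ZMod 2) Q12) • m +
        (single (1 : Q12) (r ⟨red_two_e 1 1, he1.2⟩) : MonoidAlgebra (ZMod 2) Q12) • n = n
      rw [a, b, red_two_one_smul, single_zero, zero_smul, zero_add]
    intro s
    rcases h s with rfl | rfl | rfl | rfl
    · exact ⟨0, map_zero _⟩
    · exact ⟨_, p0⟩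
    · exact ⟨_, p1⟩
    · exact ⟨⟨red_two_e 0, he0⟩ + ⟨red_two_e 1, he1⟩, by rw [map_add, p0, p1]⟩
  · intro v
    exact red_two_ker r hr m n h0 h0' hmn v
  · intro g v
    exact red_two_equi r m n h1 h2 h3 h4 g v.1 v.2

theorem conditionN : ConditionN 2 Q12 := by
  intro P _ _ _
  refine cls_mem_of_simple _ ?_ ?_ P
  · intro S hS
    rcases simple_cases S.carrier hS with ⟨h1, h2⟩ | ⟨m, n, h0, h0', hmn, h, h1, h2, h3, h4⟩
    · exact AddSubmonoid.subset_closure (red_trivial S h1 h2)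
    · exact AddSubmonoid.subset_closure (red_two S m n h0 h0' hmn h h1 h2 h3 h4)
  · have : Finite (Q12 →₀ ZMod 2) := inferInstance
    exact Finite.of_equiv _ (MonoidAlgebra.coeffEquiv (R := ZMod 2) (M := Q12)).symm

theorem main : ∃ (G : Type) (_ : Group G) (p : ℕ) (_ : Fact p.Prime),
    Finite G ∧ ConditionN p G ∧ ¬ IsSemiperfect (MonoidAlgebra (ZLoc p) G) :=
  ⟨Q12, inferInstance, 2, fact2, inferInstance, conditionN, not_semiperfect⟩

end Pool.Agent.Helper563_SP
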